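import Mathlib
import Pool.Agent.H529R3.Delta

set_option autoImplicit false

/-!
# Infinite monochromatic sets for almost regressive colourings of branches

`Branch κ` is the set of functions from the ordinals below the cardinal `κ` to `Bool`, and
`Delta x y` is the least ordinal at which `x` and `y` differ.
-/

open Cardinal Set

namespace Pool.Agent.Results.MP_e5b57d_lc.InfiniteMono

open Pool.Agent.H529R3

universe u

theorem result (κ : Cardinal.{u}) (hκ : ℵ₀ < κ)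
    (h0 : (2 : Cardinal.{u}) ^ ℵ₀ < (2 : Cardinal.{u}) ^ κ)
    (c : Branch κ → Branch κ → Ordinal.{u}) (hsymm : ∀ x y, c x y = c y x)
    (hreg : ∃ μ : Cardinal.{u}, μ < κ ∧ (2 : Cardinal.{u}) ^ μ < (2 : Cardinal.{u}) ^ κ ∧
      ∀ x y, x ≠ y → c x y < max (Delta x y) μ.ord) :
    ∃ Y : Set (Branch κ), Y.Infinite ∧ ∃ ν : Ordinal.{u},
      ∀ x ∈ Y, ∀ y ∈ Y, x ≠ y → c x y = ν := by
  obtain ⟨μ, -, hμ, hc⟩ := hreg
  have hpos : (0 : Ordinal.{u}) < κ.ord := by
    have h1 : (0 : Ordinal.{u}) < (ℵ₀ : Cardinal.{u}).ord := by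
      rw [Cardinal.ord_aleph0]
      exact Ordinal.omega0_pos
    exact h1.trans_le (Cardinal.ord_le_ord.mpr hκ.le)
  have hmax : (2 : Cardinal.{u}) ^ (max μ ℵ₀) < (2 : Cardinal.{u}) ^ κ := by
    rcases le_total μ ℵ₀ with h | h
    · rw [max_eq_right h]; exact h0
    · rw [max_eq_left h]; exact hμ
  obtain ⟨Y, hY, -, ν, hν⟩ := main (κ := κ) (μ := max μ ℵ₀) (le_max_right _ _) hmax hpos c hsymm
    (fun x y hxy _ _ => (hc x y hxy).trans_le
      (max_le_max le_rfl (Cardinal.ord_le_ord.mpr (le_max_left _ _))))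
  exact ⟨Y, hY, ν, hν⟩

end Pool.Agent.Results.MP_e5b57d_lc.InfiniteMono
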